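import Pool.Agent.Y987.SZ.PolyU

set_option autoImplicit false

/-!
# `n` as a square plus an almost prime, and progressions of the bases of these squares
-/

namespace Pool.Agent.Results.MP_83819a_nt.AlmostPrimePlusSquare

/-- `0 < m`, `m² < n`, and `n - m²` has no prime factor `≤ y`. -/
def Rough (n : ℕ) (y : ℝ) (m : ℕ) : Prop :=
  0 < m ∧ m ^ 2 < n ∧ ∀ p : ℕ, p.Prime → p ∣ n - m ^ 2 → y < (p : ℝ)

/-- `0 < m`, `m² < n`, and `n - m²` has at most `r` prime factors (with multiplicity), all larger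
than `y`. -/
def Almost (n r : ℕ) (y : ℝ) (m : ℕ) : Prop :=
  Rough n y m ∧ (n - m ^ 2).primeFactorsList.length ≤ r

open Classical in
/-- the number of the classes `c` modulo `p` with `c² ≡ n` -/
noncomputable def nu (n p : ℕ) : ℕ :=
  ((Finset.range p).filter (fun c : ℕ => (p : ℤ) ∣ (n : ℤ) - (c : ℤ) ^ 2)).card

/-- the sieve density: the product of `1 - ν(p) / p` over the primes `p ≤ y` -/
noncomputable def V (n : ℕ) (y : ℝ) : ℝ :=
  ∏ p ∈ (Finset.Ioc 0 ⌊y⌋₊).filter Nat.Prime, (1 - (nu n p : ℝ) / p)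

/-- the largest `m` with `m² < n` -/
def X (n : ℕ) : ℕ := Nat.sqrt (n - 1)

/-- `m` is a term of a progression of `k` terms of `S` with a difference `d`, `1 ≤ d ≤ L`. -/
def InProgression (k : ℕ) (L : ℝ) (S : Set ℕ) (m : ℕ) : Prop :=
  ∃ a d : ℕ, 1 ≤ d ∧ (d : ℝ) ≤ L ∧ (∀ j < k, a + j * d ∈ S) ∧ ∃ j < k, m = a + j * d

open Finset Filter
open Pool.Agent.Y987.SZ
open Pool.Agent.Y987.SZ.PolyU
open Pool.Agent.Y843.HS (Pr VV)

/-- the values -/
def ff (n : ℕ) (_ : ℤ) (a : ℕ) : ℤ := (n : ℤ) - (a : ℤ) ^ 2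

lemma zf_eq (n p : ℕ) : (ZF {0} (ff n) p).card = nu n p := by
  classical
  unfold ZF nu
  congr 1
  ext c
  simp [ff]

lemma V_eq (n : ℕ) (z : ℝ) : V n z = VV (ZF {0} (ff n)) 0 ⌊z⌋₊ := by
  unfold V VV
  apply Finset.prod_congr rfl
  intro p _
  rw [zf_eq]

lemma cast0 {n a : ℕ} (e : ℤ) (h : a ^ 2 ≤ n) : ((n - a ^ 2 : ℕ) : ℤ) = ff n e a := by
  unfold ff
  push_cast [Nat.cast_sub h]
  ring

lemma le_X {n : ℕ} (hn : 1 ≤ n) (a : ℕ) : a ≤ X n ↔ a ^ 2 < n := by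
  unfold X
  rw [Nat.le_sqrt', ← Nat.lt_iff_le_pred (by omega)]

lemma rough_iff (n : ℕ) (hn : 1 ≤ n) (z : ℝ) (a : ℕ) :
    RoughF {0} (ff n) (X n) z a ↔ Rough n z a := by
  unfold RoughF Rough
  constructor
  · rintro ⟨h1, h2, h3⟩
    have ha := (le_X hn a).1 h2
    refine ⟨h1, ha, ?_⟩
    intro p hp hd
    apply h3 0 (by simp) p hp
    rw [← cast0 0 ha.le]
    exact_mod_cast hd
  · rintro ⟨h1, h2, h3⟩
    refine ⟨h1, (le_X hn a).2 h2, ?_⟩
    intro e _ p hp hd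
    apply h3 p hp
    rw [← cast0 e h2.le] at hd
    exact_mod_cast hd

lemma per (n : ℕ) : Per {0} (ff n) := by
  intro e _ p a _
  apply dvd_iff_dvd_of_dvd_sub
  have h : ((a % p : ℕ) : ℤ) ≡ (a : ℤ) [ZMOD (p : ℤ)] := by
    push_cast
    exact Int.mod_modEq _ _
  exact (Int.ModEq.sub_left (n : ℤ) (h.pow 2)).dvd

lemma not_dvd {p a b : ℕ} (ha : a < p) (hb : b < p) (hab : a ≠ b) : ¬ (p : ℤ) ∣ (a : ℤ) - b := by
  intro h
  have h1 : |(a : ℤ) - b| < p := by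
    rw [abs_lt]
    constructor <;> omega
  have := Int.eq_zero_of_abs_lt_dvd h h1
  omega

lemma card_le (n : ℕ) (p : ℕ) (hp : p.Prime) :
    (ZF {0} (ff n) p).card ≤ 2 ∧ (ZF {0} (ff n) p).card < p := by
  classical
  have hpz : Prime (p : ℤ) := Nat.prime_iff_prime_int.1 hp
  constructor
  · by_contra hcon
    push Not at hcon
    obtain ⟨a, ha, b, hb, c, hc, hab, hac, hbc⟩ := Finset.two_lt_card.1 hcon
    obtain ⟨ha1, ea, _, ha2⟩ := mem_filter.1 ha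
    obtain ⟨hb1, eb, _, hb2⟩ := mem_filter.1 hb
    obtain ⟨hc1, ec, _, hc2⟩ := mem_filter.1 hc
    rw [mem_range] at ha1 hb1 hc1
    have key : ∀ x y : ℕ, x < p → y < p → x ≠ y → (p : ℤ) ∣ ff n 0 x → (p : ℤ) ∣ ff n 0 y →
        (p : ℤ) ∣ (x : ℤ) + y := by
      intro x y hx hy hxy h1 h2
      have h3 : (p : ℤ) ∣ ((x : ℤ) - y) * ((x : ℤ) + y) := by
        have h4 : ((x : ℤ) - y) * ((x : ℤ) + y) = ff n 0 y - ff n 0 x := by
          unfold ff
          ring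
        rw [h4]
        exact dvd_sub h2 h1
      exact (hpz.dvd_or_dvd h3).resolve_left (not_dvd hx hy hxy)
    have h1 := key a b ha1 hb1 hab ha2 hb2
    have h2 := key a c ha1 hc1 hac ha2 hc2
    have h3 : (p : ℤ) ∣ (b : ℤ) - c := by
      have h4 : (b : ℤ) - c = ((a : ℤ) + b) - ((a : ℤ) + c) := by ring
      rw [h4]
      exact dvd_sub h1 h2
    exact not_dvd hb1 hc1 hbc h3
  · obtain ⟨c0, hc0, h0⟩ : ∃ c0 : ℕ, c0 < p ∧ ¬ (p : ℤ) ∣ ff n 0 c0 := by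
      by_cases hn : (p : ℤ) ∣ n
      · refine ⟨1, hp.one_lt, ?_⟩
        intro h
        have h2 : (p : ℤ) ∣ 1 := by
          have h3 : (1 : ℤ) = n - ff n 0 1 := by
            unfold ff
            push_cast
            ring
          rw [h3]
          exact dvd_sub hn h
        have h4 : p ∣ 1 := by exact_mod_cast h2
        exact hp.one_lt.ne' (Nat.dvd_one.1 h4)
      · refine ⟨0, hp.pos, ?_⟩
        intro h
        apply hn
        have h2 : ff n 0 0 = n := by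
          unfold ff
          push_cast
          ring
        rwa [h2] at h
    have h2 : ZF {0} (ff n) p ⊆ (range p).erase c0 := by
      intro c hc
      obtain ⟨h3, e, he, hd⟩ := mem_filter.1 hc
      rw [mem_erase]
      refine ⟨?_, h3⟩
      rintro rfl
      exact h0 hd
    have h3 := Finset.card_le_card h2
    rw [card_erase_of_mem (mem_range.2 hc0), card_range] at h3
    have := hp.pos
    omega

/-- **`n` as a square plus an almost prime.** -/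
theorem result : ∃ (κ₀ c : ℝ) (r : ℕ), 0 < κ₀ ∧ 0 < c ∧ ∀ k : ℕ, ∀ κ ε : ℝ, 0 < κ → 0 < ε →
    ∃ B n₀ : ℕ, ∀ n : ℕ, n₀ ≤ n →
      (∀ y : ℝ, 0 ≤ y → 0 < V n y) ∧
      c * (X n * V n ((X n : ℝ) ^ κ₀)) ≤ ({m | Almost n r ((X n : ℝ) ^ κ₀) m}.ncard : ℝ) ∧
      (∃ a d : ℕ, 1 ≤ d ∧ (d : ℝ) ≤ Real.log n ^ B ∧
        ∀ j < k, Almost n r ((X n : ℝ) ^ κ₀) (a + j * d)) ∧
      ∀ S : Set ℕ, (∀ m ∈ S, Rough n ((X n : ℝ) ^ κ) m) →
        ({m ∈ S | ¬ InProgression (k + 1) (Real.log n ^ B) S m}.ncard : ℝ) ≤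
          ε * (X n * V n ((X n : ℝ) ^ κ)) := by
  obtain ⟨κ₀, c, r, hκ₀, hc, H⟩ := PolyU.main 2
  refine ⟨κ₀, c, r, hκ₀, hc, ?_⟩
  intro k κ ε hκ hε
  obtain ⟨B, X₀, h⟩ := H k κ ε hκ hε
  refine ⟨B, (X₀ + 5) ^ 2 + 1, ?_⟩
  intro n hn
  have hn1 : 1 ≤ n := by
    have : 0 ≤ (X₀ + 5) ^ 2 := Nat.zero_le _
    omega
  have hXX : X₀ + 5 ≤ X n := (le_X hn1 _).2 (by omega)
  have hcard := card_le n
  obtain ⟨h1, h2, h3, h4⟩ := h (X n) (by omega) {0} (ff n) (per n) hcard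
  have hX5 : (5 : ℕ) ≤ X n := by omega
  have hXr : (5 : ℝ) ≤ X n := by exact_mod_cast hX5
  have hXn : X n ≤ n := by
    have h5 := (le_X hn1 (X n)).1 le_rfl
    nlinarith
  have hlog : Real.log (X n) ^ B ≤ Real.log n ^ B := by
    apply pow_le_pow_left₀ (Real.log_nonneg (by linarith))
    apply Real.log_le_log (by linarith)
    exact_mod_cast hXn
  have hV : ∀ y : ℝ, 0 ≤ y → 0 < V n y := fun y hy => by
    rw [V_eq]
    exact VV_pos (adm_of hcard y) hy 0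
  have hfin : {a | Almost n r ((X n : ℝ) ^ κ₀) a}.Finite :=
    (Set.finite_Icc 0 n).subset (fun m hm => ⟨Nat.zero_le _, by
      have h5 : m ^ 2 < n := hm.1.2.1
      nlinarith [hm.1.1]⟩)
  -- the number of prime factors
  have halm : ∀ a : ℕ, RoughF {0} (ff n) (X n) ((X n : ℝ) ^ κ₀) a →
      Almost n r ((X n : ℝ) ^ κ₀) a := by
    intro a ha
    have hr := (rough_iff n hn1 _ a).1 ha
    refine ⟨hr, ?_⟩
    have hnX : (n : ℤ) ≤ ((X n : ℤ) + 1) ^ 2 := by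
      have h5 : ¬ (X n + 1 ≤ X n) := by omega
      rw [le_X hn1] at h5
      have h6 : n ≤ (X n + 1) ^ 2 := by omega
      exact_mod_cast h6
    have hXz : (5 : ℤ) ≤ X n := by exact_mod_cast hX5
    have h5 := h1 (ff n 0 a) (by
      unfold ff
      have h6 : 0 ≤ (a : ℤ) ^ 2 := by positivity
      have h7 : (a : ℤ) ^ 2 ≤ n := by exact_mod_cast hr.2.1.le
      have h8 : 5 * (X n : ℤ) ^ 2 ≤ (X n : ℤ) ^ 3 := by
        nlinarith [mul_nonneg (sub_nonneg.2 hXz) (show (0 : ℤ) ≤ (X n : ℤ) ^ 2 by positivity)]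
      have h9 : ((X n : ℤ) + 1) ^ 2 ≤ 5 * (X n : ℤ) ^ 2 := by nlinarith
      rw [abs_le]
      constructor
      · linarith
      · linarith) (fun p hp hd => ha.2.2 0 (by simp) p hp hd)
    rw [← cast0 0 hr.2.1.le, Int.natAbs_natCast] at h5
    exact h5
  refine ⟨hV, ?_, ?_, ?_⟩
  · have h5 : ({m | RoughF {0} (ff n) (X n) ((X n : ℝ) ^ κ₀) m}.ncard : ℝ) ≤
        ({a | Almost n r ((X n : ℝ) ^ κ₀) a}.ncard : ℝ) := by
      rw [Nat.cast_le]
      exact Set.ncard_le_ncard (fun a ha => halm a ha) hfin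
    rw [V_eq]
    exact h2.trans h5
  · obtain ⟨a, d, i1, i2, i3⟩ := h3
    exact ⟨a, d, i1, i2.trans hlog, fun j hj => halm _ (i3 j hj)⟩
  · intro S hS
    have h5 := h4 S (fun a ha => (rough_iff n hn1 _ a).2 (hS a ha))
    have h6 : ({a ∈ S | ¬ InProgression (k + 1) (Real.log n ^ B) S a}.ncard : ℝ) ≤
        ({m ∈ S | ¬ InP (k + 1) (Real.log (X n) ^ B) S m}.ncard : ℝ) := by
      rw [Nat.cast_le]
      apply Set.ncard_le_ncard
      · intro m hm
        refine ⟨hm.1, ?_⟩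
        intro hAP
        apply hm.2
        obtain ⟨a, d, i1, i2, i3⟩ := hAP
        exact ⟨a, d, i1, i2.trans hlog, i3⟩
      · exact ((Set.finite_Icc 0 n).subset (fun m hm => ⟨Nat.zero_le _, by
          have h5 : m ^ 2 < n := (hS m hm).2.1
          nlinarith [(hS m hm).1]⟩)).subset (fun m hm => hm.1)
    rw [V_eq]
    exact h6.trans h5

end Pool.Agent.Results.MP_83819a_nt.AlmostPrimePlusSquare
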