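import Pool.Agent.Y882.GP.Mono

/-!
# Even integers as the square of a prime plus an almost prime: few exceptions

For every natural `r` and `0 < θ ≤ 1 / 2` with `(1 + θ) (r + 1) > 4`: for all but
`O(X ^ (max (2/3, 1 - θ, 4/(r+1) - θ) + ε))` even `n ≤ X` that are not `1` modulo `3` there are at least
`δ n^θ / (log n)³` primes `x ≤ n^θ` such that `n = m + x²`, where `m ≥ 2` has at most `r` prime
factors, all of them `≥ n^(1/(r+1))`. For `θ = 1 / 2`: `n = x² + P₂` for all but `O(X ^ (5/6 + ε))`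
and `n = x² + P₃` for all but `O(X ^ (2/3 + ε))` of these `n ≤ X`.
-/

set_option autoImplicit false

open Finset

namespace Pool.Agent.Results.MP_83819a_nt.PrimeSquareFewExceptions

open Classical in
/-- The primes `x ≤ n ^ θ` such that `n = m + x ^ 2` with `m ≥ 2` having at most `r` prime
factors, counted with multiplicity, all of them at least `n ^ (1 / (r + 1))`. -/
noncomputable def reps (r : ℕ) (θ : ℝ) (n : ℕ) : Finset ℕ :=
  (range (n + 1)).filter (fun x : ℕ => x.Prime ∧ (x : ℝ) ≤ (n : ℝ) ^ θ ∧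
    ∃ m : ℕ, n = m + x ^ 2 ∧ 2 ≤ m ∧ m.primeFactorsList.length ≤ r ∧
      ∀ q : ℕ, q.Prime → q ∣ m → (n : ℝ) ^ (1 / ((r : ℝ) + 1)) ≤ q)

open Classical in
/-- All but few even `n ≤ X` with `n ≢ 1` modulo `3` are of the form `n = m + x ^ 2`, `m` an almost prime, with
many primes `x`. -/
theorem result (r : ℕ) (θ ε : ℝ) (hθ0 : 0 < θ) (hθ1 : θ ≤ 1 / 2) (hr : 4 < (1 + θ) * (r + 1))
    (hε : 0 < ε) :
    ∃ δ C : ℝ, 0 < δ ∧ 0 < C ∧ ∀ X : ℕ, 1 ≤ X →
      (((Icc 1 X).filter (fun n : ℕ => (Even n ∧ n % 3 ≠ 1) ∧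
        ((reps r θ n).card : ℝ) < δ * (n : ℝ) ^ θ / Real.log n ^ 3)).card : ℝ) ≤
      C * (X : ℝ) ^ (max (max (2 / 3) (1 - θ)) (4 / ((r : ℝ) + 1) - θ) + ε) := by
  have hrs : ∀ n : ℤ, ∀ q : ℕ, q.Prime → Pool.Agent.Y882.GP.rs (Pool.Agent.Y882.GP.mo 1 2) n q ≤ 2 :=
    fun n q hq => Pool.Agent.Y882.GP.mo_rs 1 (by norm_num) 2 (by norm_num) n q hq
  obtain ⟨δ, C, hδ, hC, H⟩ := Pool.Agent.Y882.GP.gen (Pool.Agent.Y882.GP.mo 1 2)
    (by rw [Pool.Agent.Y882.GP.mo_deg _ (by norm_num)]; norm_num)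
    (by rw [Pool.Agent.Y882.GP.mo_lc]; norm_num) 1 (fun n => (Even n ∧ n % 3 ≠ 1))
    (fun n _ q hq => hrs _ q hq)
    (fun n hn q hq => Pool.Agent.Y882.GP.loc_all _ _ 2 (by norm_num) (fun q hq => hrs _ q hq)
      (by
        rw [Pool.Agent.Y882.GP.mo_eval]
        rintro ⟨t, ht⟩
        obtain ⟨⟨s, hs⟩, _⟩ := hn
        subst hs
        push_cast at ht
        omega)
      (by
        rw [Pool.Agent.Y882.GP.mo_eval, Pool.Agent.Y882.GP.mo_eval]
        rintro ⟨⟨t, ht⟩, ⟨u, hu⟩⟩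
        have := hn.2
        omega) q hq)
    r θ ε hθ0 (by
      rw [Pool.Agent.Y882.GP.mo_deg _ (by norm_num)]
      push_cast
      linarith) hr hε
  refine ⟨δ, C, hδ, hC, fun X hX => le_trans ?_ (H X hX)⟩
  have hsub : ∀ n : ℕ, Pool.Agent.Y882.GP.good (Pool.Agent.Y882.GP.mo 1 2) r n ((n : ℝ) ^ θ) ⊆
      reps r θ n := by
    intro n x hx
    unfold Pool.Agent.Y882.GP.good at hx
    unfold reps
    rw [mem_filter, mem_Icc, Pool.Agent.Y882.GP.mo_eval] at hx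
    rw [mem_filter, mem_range]
    obtain ⟨⟨h0, h1⟩, h2, h3, h4, h5⟩ := hx
    have hxn : (x : ℝ) ≤ (n : ℝ) ^ θ := (Nat.le_floor_iff (by positivity)).1 h1
    have hle : (x : ℤ) ≤ (x : ℤ) ^ 2 := by
      have : x ≤ x ^ 2 := Nat.le_self_pow (by norm_num) x
      exact_mod_cast this
    have hx0 : (0 : ℤ) ≤ x := Int.natCast_nonneg x
    refine ⟨?_, h2, hxn, ((n : ℤ) - 1 * (x : ℤ) ^ 2).natAbs, ?_, ?_, h4, ?_⟩
    · have : (x : ℤ) < n + 1 := by linarith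
      exact_mod_cast this
    · zify
      rw [abs_of_nonneg (by linarith)]
      ring
    · zify
      rw [abs_of_nonneg (by linarith)]
      exact h3
    · intro q hq hqm
      exact h5 q hq (Int.natCast_dvd.2 hqm)
  have hfin : (Icc 1 X).filter (fun n : ℕ => (Even n ∧ n % 3 ≠ 1) ∧
        ((reps r θ n).card : ℝ) < δ * (n : ℝ) ^ θ / Real.log n ^ 3) ⊆
      (Icc 1 X).filter (fun n : ℕ => (Even n ∧ n % 3 ≠ 1) ∧
        ((Pool.Agent.Y882.GP.good (Pool.Agent.Y882.GP.mo 1 2) r n ((n : ℝ) ^ θ)).card : ℝ) <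
          δ * (n : ℝ) ^ θ / Real.log n ^ (1 + 2)) := by
    intro n hn
    rw [mem_filter] at hn ⊢
    refine ⟨hn.1, hn.2.1, lt_of_le_of_lt ?_ hn.2.2⟩
    exact_mod_cast card_le_card (hsub n)
  exact_mod_cast card_le_card hfin

end Pool.Agent.Results.MP_83819a_nt.PrimeSquareFewExceptions
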